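import Mathlib

/-!
Uniqueness of `n`-th roots modulo `Q` in the integers of the `p`-th cyclotomic field, when `n` is
coprime to `l (l ^ (p - 1) - 1)` for all prime factors `l` of `Q`.
-/

set_option autoImplicit false

namespace Pool.Agent.U792.KU

open NumberField Polynomial

variable {p : ℕ} [hp : Fact p.Prime] {K : Type*} [Field K] [NumberField K]
  [IsCyclotomicExtension {p} ℚ K] {ζ : K} (hζ : IsPrimitiveRoot ζ p)

omit [IsCyclotomicExtension {p} ℚ K] hp in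
theorem frob_nonunit {l : ℕ} (hl : l.Prime) : ¬ IsUnit (l : 𝓞 K) := by
  intro hu
  have h1 : IsUnit (Algebra.norm ℤ (l : 𝓞 K)) := hu.map _
  have h2 : Algebra.norm ℤ (l : 𝓞 K) = (l : ℤ) ^ Module.finrank ℤ (𝓞 K) := by
    have := Algebra.norm_algebraMap (R := ℤ) (S := 𝓞 K) (l : ℤ)
    simpa using this
  rw [h2, isUnit_pow_iff] at h1
  · rw [Int.isUnit_iff_natAbs_eq, Int.natAbs_natCast] at h1
    exact hl.one_lt.ne' h1
  · rw [RingOfIntegers.rank]
    exact Module.finrank_pos.ne'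

include hζ in
/-- the `p - 1`-th iterate of the Frobenius map modulo `l` -/
theorem frob {l : ℕ} (hl : l.Prime) (x : 𝓞 K) :
    (l ≠ p → (l : 𝓞 K) ∣ x ^ l ^ (p - 1) - x) ∧
      (l = p → ∃ c : ℤ, (l : 𝓞 K) ∣ x ^ l ^ (p - 1) - (c : 𝓞 K)) := by
  have : Fact l.Prime := ⟨hl⟩
  have hlu : (l : 𝓞 K) ∈ nonunits (𝓞 K) := frob_nonunit hl
  let A := 𝓞 K ⧸ (Ideal.span {(l : 𝓞 K)} : Ideal (𝓞 K))
  have : CharP A l := CharP.quotient (𝓞 K) l hlu
  have : ExpChar A l := ExpChar.prime hl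
  let mk : 𝓞 K →+* A := Ideal.Quotient.mk _
  have hmk : ∀ a b : 𝓞 K, mk a = mk b ↔ (l : 𝓞 K) ∣ a - b := by
    intro a b
    rw [Ideal.Quotient.mk_eq_mk_iff_sub_mem, Ideal.mem_span_singleton]
  let F : A →+* A := iterateFrobenius A l (p - 1)
  have hF : ∀ a : A, F a = a ^ l ^ (p - 1) := fun a => iterateFrobenius_def l (p - 1) a
  obtain ⟨f, hf⟩ := hζ.integralPowerBasis.exists_eq_aeval' x
  rw [hζ.integralPowerBasis_gen] at hf
  have hζp : hζ.toInteger ^ p = 1 := hζ.toInteger_isPrimitiveRoot.pow_eq_one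
  have key : F (mk x) = eval₂ (Int.castRingHom A) (mk (hζ.toInteger) ^ l ^ (p - 1)) f := by
    rw [hf, aeval_def, hom_eval₂, hom_eval₂, hF]
    congr 1
    exact RingHom.ext_int _ _
  have hx : eval₂ (Int.castRingHom A) (mk hζ.toInteger) f = mk x := by
    rw [hf, aeval_def, hom_eval₂]
    congr 1
  constructor
  · intro hlp
    have h1 : l ^ (p - 1) ≡ 1 [MOD p] := by
      have h2 := Nat.ModEq.pow_totient ((Nat.coprime_primes hl hp.out).2 hlp)
      rwa [Nat.totient_prime hp.out] at h2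
    have h2 : hζ.toInteger ^ l ^ (p - 1) = hζ.toInteger := by
      obtain ⟨t, ht⟩ := (Nat.modEq_iff_dvd' (Nat.one_le_pow _ _ hl.pos)).1 h1.symm
      have h3 : l ^ (p - 1) = p * t + 1 := by
        have := Nat.one_le_pow (p - 1) l hl.pos
        omega
      rw [h3, pow_succ, pow_mul, hζp, one_pow, one_mul]
    rw [← map_pow, h2, hx, hF, ← map_pow] at key
    exact (hmk _ _).1 key
  · intro hlp
    have h2 : hζ.toInteger ^ l ^ (p - 1) = 1 := by
      obtain ⟨k, hk⟩ : ∃ k, p - 1 = k + 1 := ⟨p - 2, by have := hp.out.two_le; omega⟩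
      rw [hlp, hk, pow_succ', pow_mul, hζp, one_pow]
    refine ⟨f.eval 1, ?_⟩
    rw [← map_pow, h2, map_one, hF, ← map_pow] at key
    have h3 : eval₂ (Int.castRingHom A) 1 f = mk ((f.eval 1 : ℤ) : 𝓞 K) := by
      rw [eval₂_at_one, map_intCast]
      simp
    rw [h3] at key
    exact (hmk _ _).1 key

omit [NumberField K] in
theorem dvd_pow_sub_one_of_coprime_int {l : ℕ} (hl : l.Prime) {c : ℤ} (hc : ¬ (l : ℤ) ∣ c) :
    (l : 𝓞 K) ∣ (c : 𝓞 K) ^ (l - 1) - 1 := by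
  have : Fact l.Prime := ⟨hl⟩
  have h1 : (c : ZMod l) ≠ 0 := by
    intro h
    exact hc ((ZMod.intCast_zmod_eq_zero_iff_dvd c l).1 h)
  have h2 := ZMod.pow_card_sub_one_eq_one h1
  have h3 : (l : ℤ) ∣ c ^ (l - 1) - 1 := by
    apply (ZMod.intCast_zmod_eq_zero_iff_dvd _ l).1
    push_cast
    rw [h2, sub_self]
  have h4 := (Int.castRingHom (𝓞 K)).map_dvd h3
  simpa using h4

include hζ in
/-- `x ^ M` is `1` modulo `l` for the units `x` modulo `l`, with `M` prime to `n` -/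
theorem exists_exp {l n : ℕ} (hl : l.Prime) (hn : Nat.Coprime n (l * (l ^ (p - 1) - 1))) :
    ∃ M : ℕ, Nat.Coprime n M ∧ ∀ x : 𝓞 K, IsCoprime x (l : 𝓞 K) → (l : 𝓞 K) ∣ x ^ M - 1 := by
  have hnl : Nat.Coprime n l := Nat.Coprime.coprime_mul_right_right hn
  have hn2 : Nat.Coprime n (l ^ (p - 1) - 1) := Nat.Coprime.coprime_mul_left_right hn
  have hpos : 1 ≤ l ^ (p - 1) := Nat.one_le_pow _ _ hl.pos
  by_cases hlp : l = p
  · refine ⟨l ^ (p - 1) * (l - 1), ?_, ?_⟩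
    · refine Nat.Coprime.mul_right (hnl.pow_right _) ?_
      refine Nat.Coprime.coprime_dvd_right ?_ hn2
      have := Nat.sub_dvd_pow_sub_pow l 1 (p - 1)
      rwa [one_pow] at this
    · intro x hx
      obtain ⟨c, hc⟩ := (frob (hζ := hζ) hl x).2 hlp
      have hlc : ¬ (l : ℤ) ∣ c := by
        intro h
        have h1 : (l : 𝓞 K) ∣ (c : 𝓞 K) := by
          have := (Int.castRingHom (𝓞 K)).map_dvd h
          simpa using this
        have h2 : (l : 𝓞 K) ∣ x ^ l ^ (p - 1) := by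
          have := dvd_add hc h1
          rwa [sub_add_cancel] at this
        have h3 : IsUnit (l : 𝓞 K) := (IsCoprime.pow_left hx).isUnit_of_dvd' h2 dvd_rfl
        have h4 := (frob_nonunit hl) h3
        exact h4
      have h1 := dvd_pow_sub_one_of_coprime_int (K := K) hl hlc
      have h2 : (l : 𝓞 K) ∣ (x ^ l ^ (p - 1)) ^ (l - 1) - (c : 𝓞 K) ^ (l - 1) :=
        hc.trans (sub_dvd_pow_sub_pow _ _ _)
      have h3 := dvd_add h2 h1
      rw [sub_add_sub_cancel, ← pow_mul] at h3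
      exact h3
  · refine ⟨l ^ (p - 1) - 1, hn2, ?_⟩
    intro x hx
    have h1 := (frob (hζ := hζ) hl x).1 hlp
    have h2 : x ^ l ^ (p - 1) - x = x * (x ^ (l ^ (p - 1) - 1) - 1) := by
      rw [mul_sub, mul_one, mul_pow_sub_one (by omega)]
    rw [h2] at h1
    exact hx.symm.dvd_of_dvd_mul_left h1

omit [NumberField K] in
/-- uniqueness of `n`-th roots modulo `l ^ k` -/
theorem root_prime_pow {l n k : ℕ} (hn0 : n ≠ 0)
    {M : ℕ} (hnM : Nat.Coprime n M) (hnl : Nat.Coprime n l)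
    (hM : ∀ x : 𝓞 K, IsCoprime x (l : 𝓞 K) → (l : 𝓞 K) ∣ x ^ M - 1) {a b : 𝓞 K}
    (ha : IsCoprime a (l : 𝓞 K)) (hb : IsCoprime b (l : 𝓞 K))
    (h : ((l ^ (k + 1) : ℕ) : 𝓞 K) ∣ a ^ n - b ^ n) : ((l ^ (k + 1) : ℕ) : 𝓞 K) ∣ a - b := by
  set N : ℕ := M * l ^ k with hN
  have hcop : Nat.Coprime n N := Nat.Coprime.mul_right hnM (hnl.pow_right _)
  have hx : ∀ x : 𝓞 K, IsCoprime x (l : 𝓞 K) → ((l ^ (k + 1) : ℕ) : 𝓞 K) ∣ x ^ N - 1 := by
    intro x hx
    have h1 := dvd_sub_pow_of_dvd_sub (R := 𝓞 K) (p := l) (a := x ^ M) (b := 1) (hM x hx) k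
    rw [one_pow, ← pow_mul] at h1
    push_cast
    exact h1
  -- `n u = 1 + N v`
  obtain ⟨u, v, huv⟩ : ∃ u v : ℕ, n * u = 1 + N * v := by
    rcases Nat.lt_or_ge 1 N with h0 | h0
    · obtain ⟨u, -, hu⟩ := Nat.exists_mul_mod_eq_one_of_coprime hcop h0
      exact ⟨u, n * u / N, by rw [← hu]; exact (Nat.mod_add_div _ _).symm⟩
    · interval_cases N
      · rw [Nat.coprime_zero_right] at hcop
        exact ⟨1, 0, by rw [hcop]⟩
      · exact ⟨1, n - 1, by omega⟩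
  have h1 : ((l ^ (k + 1) : ℕ) : 𝓞 K) ∣ a * (a ^ N) ^ v - b * (b ^ N) ^ v := by
    have h2 : ((l ^ (k + 1) : ℕ) : 𝓞 K) ∣ (a ^ n) ^ u - (b ^ n) ^ u :=
      h.trans (sub_dvd_pow_sub_pow _ _ _)
    have e : ∀ x : 𝓞 K, (x ^ n) ^ u = x * (x ^ N) ^ v := by
      intro x
      rw [← pow_mul, huv, pow_add, pow_one, pow_mul]
    rwa [e, e] at h2
  have h2 : ∀ x : 𝓞 K, IsCoprime x (l : 𝓞 K) →
      ((l ^ (k + 1) : ℕ) : 𝓞 K) ∣ x * (x ^ N) ^ v - x := by
    intro x hx'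
    have h3 : ((l ^ (k + 1) : ℕ) : 𝓞 K) ∣ (x ^ N) ^ v - 1 ^ v :=
      (hx x hx').trans (sub_dvd_pow_sub_pow _ _ _)
    have e : x * (x ^ N) ^ v - x = x * ((x ^ N) ^ v - 1 ^ v) := by ring
    rw [e]
    exact h3.mul_left _
  have h3 := dvd_add (dvd_sub h1 (h2 a ha)) (h2 b hb)
  have e : a * (a ^ N) ^ v - b * (b ^ N) ^ v - (a * (a ^ N) ^ v - a) + (b * (b ^ N) ^ v - b) =
      a - b := by ring
  rwa [e] at h3

include hζ in
/-- uniqueness of `n`-th roots modulo `Q` -/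
theorem root_unique {n : ℕ} (hn0 : n ≠ 0) {Q : ℕ} (hQ0 : Q ≠ 0)
    (hQ : ∀ l : ℕ, l.Prime → l ∣ Q → Nat.Coprime n (l * (l ^ (p - 1) - 1))) {a b : 𝓞 K}
    (ha : IsCoprime a (Q : 𝓞 K)) (hb : IsCoprime b (Q : 𝓞 K))
    (h : (Q : 𝓞 K) ∣ a ^ n - b ^ n) : (Q : 𝓞 K) ∣ a - b := by
  induction Q using Nat.recOnPosPrimePosCoprime with
  | prime_pow l k hl hk =>
    obtain ⟨j, rfl⟩ : ∃ j, k = j + 1 := ⟨k - 1, by omega⟩
    have h1 := hQ l hl (dvd_pow_self _ (by omega))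
    obtain ⟨M, hM1, hM2⟩ := exists_exp (hζ := hζ) hl h1
    have hcp : ∀ x : 𝓞 K, IsCoprime x ((l ^ (j + 1) : ℕ) : 𝓞 K) → IsCoprime x (l : 𝓞 K) := by
      intro x hx
      push_cast at hx
      exact (IsCoprime.pow_right_iff (by omega)).1 hx
    exact root_prime_pow hn0 hM1 (Nat.Coprime.coprime_mul_right_right h1) hM2 (hcp a ha)
      (hcp b hb) h
  | zero => exact absurd rfl hQ0
  | one => simp
  | coprime c d hc hd hcd ihc ihd =>
    have hc' : ((c * d : ℕ) : 𝓞 K) = (c : 𝓞 K) * (d : 𝓞 K) := by push_cast; rfl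
    rw [hc'] at ha hb h ⊢
    have hcop : IsCoprime (c : 𝓞 K) (d : 𝓞 K) := by
      have := (Nat.isCoprime_iff_coprime.2 hcd).map (Int.castRingHom (𝓞 K))
      simpa using this
    refine hcop.mul_dvd ?_ ?_
    · exact ihc (by omega) (fun l hl hlc => hQ l hl (hlc.mul_right _)) ha.of_mul_right_left
        hb.of_mul_right_left ((dvd_mul_right _ _).trans h)
    · exact ihd (by omega) (fun l hl hlc => hQ l hl (hlc.mul_left _)) ha.of_mul_right_right
        hb.of_mul_right_right ((dvd_mul_left _ _).trans h)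

end Pool.Agent.U792.KU
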