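import Mathlib
import Pool.Agent.U792.KU.Root

/-!
`X ^ p + Y ^ p = z ^ n` with `n` prime to the class number of the `p`-th cyclotomic field:
`X + ζ Y = (ζ - 1) ^ δ ε α ^ n`, and the quotient by the complex conjugate is a root of unity times
an `n`-th power.
-/

set_option autoImplicit false

namespace Pool.Agent.U792.KU

open NumberField Polynomial Finset

section general

variable {K : Type*} [Field K] [NumberField K]

theorem isPrincipal_of_pow {n : ℕ} (hn : Nat.Coprime n (Fintype.card (ClassGroup (𝓞 K))))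
    {I : Ideal (𝓞 K)} (hI : I ≠ ⊥) (h : (I ^ n).IsPrincipal) : I.IsPrincipal := by
  let I' : nonZeroDivisors (Ideal (𝓞 K)) := ⟨I, mem_nonZeroDivisors_of_ne_zero hI⟩
  have h1 : (ClassGroup.mk0 I') ^ n = 1 := by
    rw [← map_pow, ClassGroup.mk0_eq_one_iff]
    exact h
  have h2 : (ClassGroup.mk0 I') ^ Fintype.card (ClassGroup (𝓞 K)) = 1 := pow_card_eq_one
  have h3 : orderOf (ClassGroup.mk0 I') = 1 :=
    Nat.Coprime.eq_one_of_dvd
      (Nat.Coprime.coprime_dvd_left (orderOf_dvd_of_pow_eq_one h1) hn)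
      (orderOf_dvd_of_pow_eq_one h2)
  exact (ClassGroup.mk0_eq_one_iff I'.2).1 (orderOf_eq_one_iff.1 h3)

end general

variable {p : ℕ} [hp : Fact p.Prime] {K : Type*} [Field K] [NumberField K]
  [IsCyclotomicExtension {p} ℚ K] {ζ : K} (hζ : IsPrimitiveRoot ζ p)

include hζ in
theorem exists_w (hp2 : p ≠ 2) {X Y : ℤ} (hXY : IsCoprime X Y) :
    ∃ (d : ℕ) (w : 𝓞 K), (X : 𝓞 K) + hζ.toInteger * Y = (hζ.toInteger - 1) ^ d * w ∧
      IsCoprime w (hζ.toInteger - 1) := by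
  have key : ∀ w : 𝓞 K, ¬ hζ.toInteger - 1 ∣ w → IsCoprime w (hζ.toInteger - 1) := by
    intro w hw
    exact (IsCoprime.of_isCoprime_of_dvd_left
      (IsCyclotomicExtension.Rat.isCoprime_of_not_zeta_sub_one_dvd p hζ hw)
      hζ.toInteger_sub_one_dvd_prime').symm
  have hdiv : ∀ t : ℤ, hζ.toInteger - 1 ∣ (t : 𝓞 K) ↔ (p : ℤ) ∣ t := fun t =>
    IsCyclotomicExtension.Rat.zeta_sub_one_dvd_intCast_iff' p hζ
  by_cases h : (p : ℤ) ∣ X + Y
  · obtain ⟨t, ht⟩ := h
    obtain ⟨s, hs⟩ : (hζ.toInteger - 1) ^ 2 ∣ (p : 𝓞 K) := by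
      refine (pow_dvd_pow _ ?_).trans
        (IsCyclotomicExtension.Rat.associated_zeta_sub_one_pow_prime p hζ).dvd
      have := hp.out.two_le
      omega
    have hXY' : (X : 𝓞 K) + Y = (hζ.toInteger - 1) ^ 2 * s * t := by
      have : ((X + Y : ℤ) : 𝓞 K) = ((p * t : ℤ) : 𝓞 K) := by rw [ht]
      push_cast at this
      rw [this, hs]
    refine ⟨1, (hζ.toInteger - 1) * (s * t) + Y, ?_, key _ ?_⟩
    · rw [pow_one]
      linear_combination hXY'
    · intro h1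
      have h2 : hζ.toInteger - 1 ∣ (Y : 𝓞 K) := (dvd_add_right (dvd_mul_right _ _)).1 h1
      have h3 := (hdiv Y).1 h2
      have h4 : (p : ℤ) ∣ X := by
        have h5 : (p : ℤ) ∣ X + Y := ⟨t, ht⟩
        exact (dvd_add_left h3).1 h5
      have h6 := hXY.isUnit_of_dvd' h4 h3
      rw [Int.isUnit_iff_natAbs_eq, Int.natAbs_natCast] at h6
      exact hp.out.one_lt.ne' h6
  · refine ⟨0, (X : 𝓞 K) + hζ.toInteger * Y, by rw [pow_zero, one_mul], key _ ?_⟩
    intro h1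
    apply h
    rw [← hdiv]
    have h2 : ((X + Y : ℤ) : 𝓞 K) = (X : 𝓞 K) + hζ.toInteger * Y -
        (hζ.toInteger - 1) * Y := by
      push_cast
      ring
    rw [h2]
    exact dvd_sub h1 (dvd_mul_right _ _)

include hζ in
theorem factor {n : ℕ} (hp2 : p ≠ 2) (hn0 : n ≠ 0)
    (hn : Nat.Coprime n (Fintype.card (ClassGroup (𝓞 K)))) {X Y z : ℤ} (hXY : IsCoprime X Y)
    (h : X ^ p + Y ^ p = z ^ n) :
    ∃ (d : ℕ) (ε : (𝓞 K)ˣ) (α : 𝓞 K),
      (X : 𝓞 K) + hζ.toInteger * Y = (hζ.toInteger - 1) ^ d * ε * α ^ n := by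
  classical
  obtain ⟨d, w, hw, hwπ⟩ := exists_w (hζ := hζ) hp2 hXY
  have hprim := hζ.toInteger_isPrimitiveRoot
  have hζmem : hζ.toInteger ∈ nthRootsFinset p (1 : 𝓞 K) :=
    (mem_nthRootsFinset hp.out.pos (1 : 𝓞 K)).2 hprim.pow_eq_one
  have hprod := hprim.pow_add_pow_eq_prod_add_mul (X : 𝓞 K) (Y : 𝓞 K)
    (hp.out.odd_of_ne_two hp2)
  rw [← mul_prod_erase _ _ hζmem, hw] at hprod
  set R : 𝓞 K := (hζ.toInteger - 1) ^ d * ∏ η ∈ (nthRootsFinset p (1 : 𝓞 K)).erase hζ.toInteger,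
    ((X : 𝓞 K) + η * Y) with hR
  have hwR : w * R = (z : 𝓞 K) ^ n := by
    have h1 : ((X ^ p + Y ^ p : ℤ) : 𝓞 K) = ((z ^ n : ℤ) : 𝓞 K) := by rw [h]
    push_cast at h1
    rw [← h1, hprod, hR]
    ring
  have hcop : IsCoprime w R := by
    rw [hR]
    refine IsCoprime.mul_right (IsCoprime.pow_right hwπ) (IsCoprime.prod_right ?_)
    intro η hη
    obtain ⟨hne, hη'⟩ := mem_erase.1 hη
    have hass := hprim.nthRootsFinset_pairwise_associated_sub_one_sub_of_prime hp.out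
      hζmem hη' hne.symm
    have h1 : IsCoprime w (hζ.toInteger - η) := by
      obtain ⟨u, hu⟩ := hass
      rw [← hu]
      exact (isCoprime_mul_unit_right_right u.isUnit _ _).2 hwπ
    obtain ⟨a, b, hab⟩ := hXY
    have hab' : (a : 𝓞 K) * X + b * Y = 1 := by exact_mod_cast congrArg (Int.cast : ℤ → 𝓞 K) hab
    have h2 : hζ.toInteger - η = ((X : 𝓞 K) + η * Y) * (a * hζ.toInteger - b) +
        w * ((hζ.toInteger - 1) ^ d * (b - a * η)) := by
      have h3 : w * ((hζ.toInteger - 1) ^ d * (b - a * η)) =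
          ((X : 𝓞 K) + hζ.toInteger * Y) * (b - a * η) := by
        rw [hw]
        ring
      rw [h3]
      linear_combination (η - hζ.toInteger) * hab'
    rw [h2, IsCoprime.add_mul_left_right_iff] at h1
    exact h1.of_mul_right_left
  have hw0 : w ≠ 0 := by
    rintro rfl
    rw [isCoprime_zero_left] at hwπ
    exact hζ.zeta_sub_one_prime'.not_isUnit hwπ
  have hI : Ideal.span {w} * Ideal.span {R} = Ideal.span {(z : 𝓞 K)} ^ n := by
    rw [Ideal.span_singleton_mul_span_singleton, hwR, Ideal.span_singleton_pow]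
  obtain ⟨J, hJ⟩ := exists_eq_pow_of_mul_eq_pow_of_coprime
    ((Ideal.isCoprime_span_singleton_iff w R).2 hcop) hI
  have hJ0 : J ≠ ⊥ := by
    rintro rfl
    rw [← Ideal.zero_eq_bot, zero_pow hn0, Ideal.zero_eq_bot, Ideal.span_singleton_eq_bot] at hJ
    exact hw0 hJ
  have hJp : J.IsPrincipal := isPrincipal_of_pow hn hJ0 (by rw [← hJ]; exact ⟨w, rfl⟩)
  obtain ⟨α, hα⟩ := hJp
  rw [← Ideal.submodule_span_eq] at hJ
  have hspan : Ideal.span {w} = Ideal.span {α ^ n} := by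
    rw [← Ideal.span_singleton_pow]
    have hα' : J = Ideal.span {α} := hα
    rw [← hα']
    exact hJ
  obtain ⟨ε, hε⟩ := Ideal.span_singleton_eq_span_singleton.1 hspan.symm
  exact ⟨d, ε, α, by rw [hw, ← hε]; ring⟩

end Pool.Agent.U792.KU
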