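import Mathlib
import Pool.Agent.U792.KU.Kummer

/-!
The quotient of `X + ζ Y` by its complex conjugate is a root of unity times an `n`-th power.
-/

set_option autoImplicit false

namespace Pool.Agent.U792.KU

open NumberField NumberField.IsCMField Polynomial Finset

variable {p : ℕ} [hp : Fact p.Prime] {K : Type*} [Field K] [NumberField K]
  [IsCyclotomicExtension {p} ℚ K] {ζ : K} (hζ : IsPrimitiveRoot ζ p)

variable [IsCMField K]

/-- complex conjugation on the integers -/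
noncomputable abbrev cc (K : Type*) [Field K] [NumberField K] [IsCMField K] : 𝓞 K →+* 𝓞 K :=
  ((ringOfIntegersComplexConj K : 𝓞 K ≃ₐ[_] 𝓞 K) : 𝓞 K →+* 𝓞 K)

omit [IsCyclotomicExtension {p} ℚ K] in
theorem conj_zeta (hζ : IsPrimitiveRoot ζ p) :
    cc K hζ.toInteger * hζ.toInteger = 1 := by
  let φ : K →+* ℂ := Classical.choice (inferInstance : Nonempty (K →+* ℂ))
  apply RingOfIntegers.ext
  apply φ.injective
  change φ (complexConj K ζ * ζ) = φ 1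
  rw [map_mul, complexEmbedding_complexConj, map_one]
  have h3 : (φ ζ) ^ p = 1 := by rw [← map_pow, hζ.pow_eq_one, map_one]
  have h4 : ‖φ ζ‖ = 1 := Complex.norm_eq_one_of_pow_eq_one h3 hp.out.ne_zero
  rw [mul_comm, Complex.mul_conj, Complex.normSq_eq_norm_sq, h4]
  norm_num

include hζ in
theorem unit_rel (hp2 : p ≠ 2) (ε : (𝓞 K)ˣ) :
    ∃ r : ℕ, (ε : 𝓞 K) = (-hζ.toInteger) ^ r * cc K (ε : 𝓞 K) := by
  set κ := unitsMulComplexConjInv K ε with hκ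
  have h1 : (κ : (𝓞 K)ˣ) * unitsComplexConj K ε = ε := by
    rw [hκ, unitsMulComplexConjInv_apply, inv_mul_cancel_right]
  have h2 : ((unitsComplexConj K ε : (𝓞 K)ˣ) : 𝓞 K) = cc K (ε : 𝓞 K) := rfl
  have h3 : IsOfFinOrder (κ : (𝓞 K)ˣ) := (CommGroup.mem_torsion _).1 κ.2
  let g : (𝓞 K)ˣ →* K := ((algebraMap (𝓞 K) K : 𝓞 K →+* K) : 𝓞 K →* K).comp (Units.coeHom (𝓞 K))
  have h4 : IsOfFinOrder (g κ) := g.isOfFinOrder h3
  obtain ⟨r, hr⟩ := hζ.exists_neg_pow_of_isOfFinOrder (hp.out.odd_of_ne_two hp2) h4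
  refine ⟨r, ?_⟩
  have h5 : ((κ : (𝓞 K)ˣ) : 𝓞 K) = (-hζ.toInteger) ^ r := by
    apply RingOfIntegers.ext
    have h6 : ((((κ : (𝓞 K)ˣ) : 𝓞 K)) : K) = (-ζ) ^ r := hr
    rw [h6]
    simp
  rw [← h5, ← h2, ← Units.val_mul, h1]

include hζ in
theorem conj_rel {n : ℕ} (hp2 : p ≠ 2) (hnp : Nat.Coprime n (2 * p)) {X Y : ℤ} {d : ℕ}
    {ε : (𝓞 K)ˣ} {α : 𝓞 K}
    (h : (X : 𝓞 K) + hζ.toInteger * Y = (hζ.toInteger - 1) ^ d * ε * α ^ n) :
    ∃ s : ℕ, ((X : 𝓞 K) + hζ.toInteger * Y) * (cc K α) ^ n =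
      ((X : 𝓞 K) + cc K hζ.toInteger * Y) * ((-hζ.toInteger) ^ s * α) ^ n := by
  obtain ⟨r, hr⟩ := unit_rel (hζ := hζ) hp2 ε
  have hcz := conj_zeta hζ
  have h1 : (X : 𝓞 K) + cc K hζ.toInteger * Y =
      (cc K hζ.toInteger - 1) ^ d * cc K (ε : 𝓞 K) * (cc K α) ^ n := by
    have := congrArg (cc K) h
    simpa using this
  -- the root of unity is an `n`-th power
  obtain ⟨s, hs⟩ : ∃ s : ℕ, (-hζ.toInteger) ^ (n * s) = (-hζ.toInteger) ^ (d + r) := by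
    have h2p : (-hζ.toInteger) ^ (2 * p) = 1 := by
      rw [pow_mul, neg_sq, ← pow_mul, mul_comm, pow_mul,
        hζ.toInteger_isPrimitiveRoot.pow_eq_one, one_pow]
    obtain ⟨u, -, hu⟩ := Nat.exists_mul_mod_eq_one_of_coprime hnp
      (by have := hp.out.two_le; omega)
    refine ⟨u * (d + r), ?_⟩
    have h3 : n * u = 1 + 2 * p * (n * u / (2 * p)) := by
      have := Nat.mod_add_div (n * u) (2 * p)
      omega
    rw [← mul_assoc, h3, add_mul, one_mul, pow_add, mul_assoc (2 * p), pow_mul, h2p, one_pow,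
      mul_one]
  refine ⟨s, ?_⟩
  have h4 : hζ.toInteger - 1 = -hζ.toInteger * (cc K hζ.toInteger - 1) := by
    linear_combination hcz
  rw [h1, h, mul_pow, ← pow_mul, mul_comm s n, hs, h4, mul_pow, pow_add]
  nth_rewrite 1 [hr]
  ring

end Pool.Agent.U792.KU
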