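import Mathlib
import Pool.Agent.U792.KU.Conj

/-!
The product of the absolute values of the conjugates, and the bound for the divisors `Q` of a
difference `a - b` whose terms have the same absolute values as `α`.
-/

set_option autoImplicit false

namespace Pool.Agent.U792.KU

open NumberField NumberField.IsCMField Polynomial Finset

variable {K : Type*} [Field K] [NumberField K]

/-- the absolute value of the norm -/
noncomputable def Nm (x : 𝓞 K) : ℝ := ∏ σ : K →ₐ[ℚ] ℂ, ‖σ (x : K)‖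

theorem Nm_eq (x : 𝓞 K) : Nm x = |((Algebra.norm ℤ x : ℤ) : ℝ)| := by
  have h1 := Algebra.norm_eq_prod_embeddings ℚ ℂ (x : K)
  have h2 : ((Algebra.norm ℤ x : ℤ) : ℚ) = Algebra.norm ℚ (x : K) := Algebra.coe_norm_int x
  have h3 : ‖algebraMap ℚ ℂ (Algebra.norm ℚ (x : K))‖ = |((Algebra.norm ℤ x : ℤ) : ℝ)| := by
    rw [← h2]
    simp
  rw [← h3, h1, norm_prod]
  rfl

theorem Nm_mul (x y : 𝓞 K) : Nm (x * y) = Nm x * Nm y := by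
  unfold Nm
  rw [← prod_mul_distrib]
  refine prod_congr rfl fun σ _ => ?_
  simp

theorem Nm_pow (x : 𝓞 K) (n : ℕ) : Nm (x ^ n) = Nm x ^ n := by
  unfold Nm
  rw [← prod_pow]
  refine prod_congr rfl fun σ _ => ?_
  simp

theorem Nm_nonneg (x : 𝓞 K) : 0 ≤ Nm x := prod_nonneg fun _ _ => norm_nonneg _

theorem one_le_Nm {x : 𝓞 K} (hx : x ≠ 0) : 1 ≤ Nm x := by
  rw [Nm_eq]
  have h1 : Algebra.norm ℤ x ≠ 0 := Algebra.norm_ne_zero_iff.2 hx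
  have h2 : 1 ≤ |Algebra.norm ℤ x| := Int.one_le_abs h1
  exact_mod_cast h2

theorem Nm_natCast (Q : ℕ) : Nm (Q : 𝓞 K) = (Q : ℝ) ^ Module.finrank ℚ K := by
  unfold Nm
  have h1 : ∀ σ ∈ (univ : Finset (K →ₐ[ℚ] ℂ)), ‖σ (((Q : 𝓞 K) : 𝓞 K) : K)‖ = (Q : ℝ) := by
    intro σ _
    simp
  rw [prod_congr rfl h1, prod_const, card_univ, ← AlgHom.card ℚ K ℂ]

theorem pow_le_Nm {Q : ℕ} {x : 𝓞 K} (hx : x ≠ 0) (h : (Q : 𝓞 K) ∣ x) :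
    (Q : ℝ) ^ Module.finrank ℚ K ≤ Nm x := by
  obtain ⟨y, rfl⟩ := h
  rw [Nm_mul, Nm_natCast]
  have hy : y ≠ 0 := by
    rintro rfl
    exact hx (mul_zero _)
  exact le_mul_of_one_le_right (by positivity) (one_le_Nm hy)

theorem Nm_sub_le {a b α : 𝓞 K} (ha : ∀ σ : K →ₐ[ℚ] ℂ, ‖σ (a : K)‖ = ‖σ (α : K)‖)
    (hb : ∀ σ : K →ₐ[ℚ] ℂ, ‖σ (b : K)‖ = ‖σ (α : K)‖) :
    Nm (a - b) ≤ 2 ^ Module.finrank ℚ K * Nm α := by
  unfold Nm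
  rw [← AlgHom.card ℚ K ℂ, ← card_univ, ← prod_const, ← prod_mul_distrib]
  refine prod_le_prod (fun _ _ => norm_nonneg _) fun σ _ => ?_
  have h1 : σ ((a - b : 𝓞 K) : K) = σ (a : K) - σ (b : K) := by simp
  rw [h1]
  refine (norm_sub_le _ _).trans ?_
  rw [ha, hb, two_mul]

theorem Nm_lin_le {X Y : ℤ} {η : 𝓞 K} (hη : ∀ σ : K →ₐ[ℚ] ℂ, ‖σ (η : K)‖ = 1) :
    Nm ((X : 𝓞 K) + η * (Y : 𝓞 K)) ≤ ((|X| + |Y| : ℤ) : ℝ) ^ Module.finrank ℚ K := by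
  unfold Nm
  rw [← AlgHom.card ℚ K ℂ, ← card_univ, ← prod_const]
  refine prod_le_prod (fun _ _ => norm_nonneg _) fun σ _ => ?_
  have h1 : σ (((X : 𝓞 K) + η * (Y : 𝓞 K) : 𝓞 K) : K) = (X : ℂ) + σ (η : K) * (Y : ℂ) := by simp
  rw [h1]
  refine (norm_add_le _ _).trans ?_
  rw [norm_mul, hη, one_mul]
  push_cast
  rw [Complex.norm_intCast, Complex.norm_intCast]

variable {p : ℕ} [hp : Fact p.Prime] [IsCyclotomicExtension {p} ℚ K] {ζ : K}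
  (hζ : IsPrimitiveRoot ζ p)

omit [IsCyclotomicExtension {p} ℚ K] in
theorem norm_zeta (hζ : IsPrimitiveRoot ζ p) (σ : K →ₐ[ℚ] ℂ) :
    ‖σ ((hζ.toInteger : 𝓞 K) : K)‖ = 1 := by
  have h1 : (σ ζ) ^ p = 1 := by rw [← map_pow, hζ.pow_eq_one, map_one]
  exact Complex.norm_eq_one_of_pow_eq_one h1 hp.out.ne_zero

omit hp [IsCyclotomicExtension {p} ℚ K] in
theorem norm_cc [IsCMField K] (x : 𝓞 K) (σ : K →ₐ[ℚ] ℂ) :
    ‖σ ((cc K x : 𝓞 K) : K)‖ = ‖σ (x : K)‖ := by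
  have h1 : ((cc K x : 𝓞 K) : K) = complexConj K (x : K) := rfl
  have h2 := complexEmbedding_complexConj K (σ : K →+* ℂ) (x : K)
  rw [h1]
  have h3 : σ (complexConj K (x : K)) = (starRingEnd ℂ) (σ (x : K)) := h2
  rw [h3, Complex.norm_conj]

omit [IsCyclotomicExtension {p} ℚ K] in
theorem norm_neg_zeta_pow_mul (hζ : IsPrimitiveRoot ζ p) (s : ℕ) (x : 𝓞 K) (σ : K →ₐ[ℚ] ℂ) :
    ‖σ (((-hζ.toInteger) ^ s * x : 𝓞 K) : K)‖ = ‖σ (x : K)‖ := by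
  have h1 : σ (((-hζ.toInteger) ^ s * x : 𝓞 K) : K) =
      (-σ ((hζ.toInteger : 𝓞 K) : K)) ^ s * σ (x : K) := by simp
  rw [h1, norm_mul, norm_pow, norm_neg, norm_zeta hζ, one_pow, one_mul]

/-- from `Q ∣ a - b` to the inequality -/
theorem final_bound {n : ℕ} {Q : ℕ} {X Y : ℤ} {α a b u : 𝓞 K} (hζ : IsPrimitiveRoot ζ p)
    (hA : (X : 𝓞 K) + hζ.toInteger * Y = u * α ^ n) (hu : u ≠ 0)
    (ha : ∀ σ : K →ₐ[ℚ] ℂ, ‖σ (a : K)‖ = ‖σ (α : K)‖)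
    (hb : ∀ σ : K →ₐ[ℚ] ℂ, ‖σ (b : K)‖ = ‖σ (α : K)‖) (hab : a ≠ b) (h : (Q : 𝓞 K) ∣ a - b) :
    (Q : ℤ) ^ n ≤ 2 ^ n * (|X| + |Y|) := by
  have hp1 : Module.finrank ℚ K = p - 1 := by
    rw [IsCyclotomicExtension.finrank K (cyclotomic.irreducible_rat hp.out.pos),
      Nat.totient_prime hp.out]
  have hp0 : p - 1 ≠ 0 := by
    have := hp.out.two_le
    omega
  have h1 := pow_le_Nm (sub_ne_zero.2 hab) h
  have h2 := h1.trans (Nm_sub_le ha hb)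
  have h3 : Nm α ^ n ≤ ((|X| + |Y| : ℤ) : ℝ) ^ Module.finrank ℚ K := by
    refine le_trans ?_ (Nm_lin_le (X := X) (Y := Y) (norm_zeta hζ))
    rw [hA, Nm_mul, Nm_pow]
    exact le_mul_of_one_le_left (pow_nonneg (Nm_nonneg _) _) (one_le_Nm hu)
  have h4 := pow_le_pow_left₀ (by positivity) h2 n
  rw [mul_pow, hp1] at h4
  rw [hp1] at h3
  have h5 : ((Q : ℝ) ^ n) ^ (p - 1) ≤ (2 ^ n * ((|X| + |Y| : ℤ) : ℝ)) ^ (p - 1) := by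
    calc ((Q : ℝ) ^ n) ^ (p - 1) = ((Q : ℝ) ^ (p - 1)) ^ n := by rw [← pow_mul, ← pow_mul, mul_comm]
      _ ≤ (2 ^ (p - 1)) ^ n * Nm α ^ n := h4
      _ ≤ (2 ^ (p - 1)) ^ n * ((|X| + |Y| : ℤ) : ℝ) ^ (p - 1) :=
          mul_le_mul_of_nonneg_left h3 (by positivity)
      _ = (2 ^ n * ((|X| + |Y| : ℤ) : ℝ)) ^ (p - 1) := by
          rw [mul_pow, ← pow_mul, ← pow_mul, mul_comm n]
  have h6 : 0 ≤ 2 ^ n * ((|X| + |Y| : ℤ) : ℝ) := by positivity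
  have h7 := le_of_pow_le_pow_left₀ hp0 h6 h5
  exact_mod_cast h7

end Pool.Agent.U792.KU
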