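import Mathlib
import Pool.Agent.U792.KU.Nrm

/-!
`X ^ p + Y ^ p = z ^ n`: the divisors of `X`, `Y`, `X - Y` and `X + Y` modulo which `n`-th roots are
unique are small.
-/

set_option autoImplicit false

namespace Pool.Agent.U792.KU

open NumberField NumberField.IsCMField Polynomial Finset

variable {p : ℕ} [hp : Fact p.Prime] {K : Type*} [Field K] [NumberField K]
  [IsCyclotomicExtension {p} ℚ K] {ζ : K}

omit [IsCyclotomicExtension {p} ℚ K] in
theorem root_pow (hζ : IsPrimitiveRoot ζ p) {n : ℕ} (hnp : Nat.Coprime n (2 * p)) (k : ℕ) :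
    ∃ s : ℕ, (-hζ.toInteger) ^ (n * s) = (-hζ.toInteger) ^ k := by
  have h2p : (-hζ.toInteger) ^ (2 * p) = 1 := by
    rw [pow_mul, neg_sq, ← pow_mul, mul_comm, pow_mul,
      hζ.toInteger_isPrimitiveRoot.pow_eq_one, one_pow]
  obtain ⟨u, -, hu⟩ := Nat.exists_mul_mod_eq_one_of_coprime hnp
    (by have := hp.out.two_le; omega)
  refine ⟨u * k, ?_⟩
  have h3 : n * u = 1 + 2 * p * (n * u / (2 * p)) := by
    have := Nat.mod_add_div (n * u) (2 * p)
    omega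
  rw [← mul_assoc, h3, add_mul, one_mul, pow_add, mul_assoc (2 * p), pow_mul, h2p, one_pow,
    mul_one]

omit [IsCyclotomicExtension {p} ℚ K] in
theorem isUnit_neg_zeta (hζ : IsPrimitiveRoot ζ p) (k : ℕ) :
    IsUnit ((-hζ.toInteger) ^ k) :=
  ((hζ.toInteger_isPrimitiveRoot.isUnit hp.out.ne_zero).neg).pow k

variable [IsCMField K]

theorem core (hζ : IsPrimitiveRoot ζ p) {n : ℕ} (hn0 : n ≠ 0) (hnp : Nat.Coprime n (2 * p))
    {X Y : ℤ} {d : ℕ} {ε : (𝓞 K)ˣ} {α : 𝓞 K}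
    (hA : (X : 𝓞 K) + hζ.toInteger * Y = (hζ.toInteger - 1) ^ d * ε * α ^ n) {s : ℕ}
    (hrel : ((X : 𝓞 K) + hζ.toInteger * Y) * (cc K α) ^ n =
      ((X : 𝓞 K) + cc K hζ.toInteger * Y) * ((-hζ.toInteger) ^ s * α) ^ n)
    {k Q : ℕ} (hQ0 : Q ≠ 0)
    (hQ : ∀ l : ℕ, l.Prime → l ∣ Q → Nat.Coprime n (l * (l ^ (p - 1) - 1)))
    (hdvd : (Q : 𝓞 K) ∣ ((X : 𝓞 K) + hζ.toInteger * Y) -
      (-hζ.toInteger) ^ k * ((X : 𝓞 K) + cc K hζ.toInteger * Y))
    (hne : ((X : 𝓞 K) + hζ.toInteger * Y) -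
      (-hζ.toInteger) ^ k * ((X : 𝓞 K) + cc K hζ.toInteger * Y) ≠ 0)
    (hB : IsCoprime ((X : 𝓞 K) + cc K hζ.toInteger * Y) (Q : 𝓞 K)) :
    (Q : ℤ) ^ n ≤ 2 ^ n * (|X| + |Y|) := by
  obtain ⟨t, ht⟩ := root_pow hζ hnp k
  have hBeq : (X : 𝓞 K) + cc K hζ.toInteger * Y =
      (cc K hζ.toInteger - 1) ^ d * cc K (ε : 𝓞 K) * (cc K α) ^ n := by
    have := congrArg (cc K) hA
    simpa using this
  set A : 𝓞 K := (X : 𝓞 K) + hζ.toInteger * Y with hAdef
  set B : 𝓞 K := (X : 𝓞 K) + cc K hζ.toInteger * Y with hBdef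
  set κ : 𝓞 K := (-hζ.toInteger) ^ k with hκ
  set a : 𝓞 K := (-hζ.toInteger) ^ t * cc K α with ha
  set b : 𝓞 K := (-hζ.toInteger) ^ s * α with hb
  have han : a ^ n = κ * (cc K α) ^ n := by
    rw [ha, mul_pow, ← pow_mul, mul_comm t n, ht]
  have hA0 : A ≠ 0 := by
    intro h0
    have h1 : B = 0 := by
      have h2 : B = cc K A := by simp [hAdef, hBdef]
      rw [h2, h0, map_zero]
    rw [h0, h1, mul_zero, sub_zero] at hne
    exact hne rfl
  have hα0 : α ≠ 0 := by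
    rintro rfl
    rw [zero_pow hn0, mul_zero] at hA
    exact hA0 hA
  have hcα0 : cc K α ≠ 0 := by
    intro h0
    apply hα0
    have h1 : (ringOfIntegersComplexConj K : 𝓞 K ≃ₐ[_] 𝓞 K) α = 0 := h0
    exact (map_eq_zero_iff _ (AlgEquiv.injective _)).1 h1
  have h1 : B * (a ^ n - b ^ n) = -((A - κ * B) * (cc K α) ^ n) := by
    rw [han]
    linear_combination hrel
  have h2 : (Q : 𝓞 K) ∣ a ^ n - b ^ n := by
    refine hB.symm.dvd_of_dvd_mul_left ?_
    rw [h1]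
    exact (hdvd.mul_right _).neg_right
  have hacop : IsCoprime a (Q : 𝓞 K) := by
    have h3 : IsCoprime ((cc K α) ^ n) (Q : 𝓞 K) :=
      IsCoprime.of_isCoprime_of_dvd_left hB (by rw [hBeq]; exact dvd_mul_left _ _)
    exact (isCoprime_mul_unit_left_left (isUnit_neg_zeta hζ t) _ _).2
      ((IsCoprime.pow_left_iff (Nat.pos_of_ne_zero hn0)).1 h3)
  have hbcop : IsCoprime b (Q : 𝓞 K) := by
    have h3 : IsCoprime A (Q : 𝓞 K) := by
      obtain ⟨r, hr⟩ := hdvd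
      have h4 : A = κ * B + (Q : 𝓞 K) * r := by rw [← hr]; ring
      rw [h4, IsCoprime.add_mul_left_left_iff]
      exact (isCoprime_mul_unit_left_left (isUnit_neg_zeta hζ k) _ _).2 hB
    have h5 : IsCoprime (α ^ n) (Q : 𝓞 K) :=
      IsCoprime.of_isCoprime_of_dvd_left h3 (by rw [hA]; exact dvd_mul_left _ _)
    exact (isCoprime_mul_unit_left_left (isUnit_neg_zeta hζ s) _ _).2
      ((IsCoprime.pow_left_iff (Nat.pos_of_ne_zero hn0)).1 h5)
  have h3 := root_unique (hζ := hζ) hn0 hQ0 hQ hacop hbcop h2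
  have hab : a ≠ b := by
    intro h0
    rw [h0, sub_self, mul_zero] at h1
    have h4 : (A - κ * B) * (cc K α) ^ n = 0 := by
      rw [← neg_eq_zero]
      exact h1.symm
    rcases mul_eq_zero.1 h4 with h5 | h5
    · exact hne h5
    · exact hcα0 (pow_eq_zero_iff hn0 |>.1 h5)
  refine final_bound (a := a) (b := b) hζ hA ?_ ?_ ?_ hab h3
  · refine mul_ne_zero (pow_ne_zero _ ?_) ε.ne_zero
    exact hζ.zeta_sub_one_prime'.ne_zero
  · intro σ
    rw [ha, norm_neg_zeta_pow_mul hζ, norm_cc]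
  · intro σ
    rw [hb, norm_neg_zeta_pow_mul hζ]

theorem isUnit_one_add (hζ : IsPrimitiveRoot ζ p) (hp2 : p ≠ 2) :
    IsUnit (1 + hζ.toInteger) := by
  have h1 := hζ.toInteger_isPrimitiveRoot.associated_sub_one_pow_sub_one_of_coprime
    (j := 2) (by
      rw [Nat.coprime_comm]
      exact (Nat.coprime_primes hp.out Nat.prime_two).2 hp2)
  obtain ⟨u, hu⟩ := h1
  have h2 : (hζ.toInteger - 1) * u = (hζ.toInteger - 1) * (1 + hζ.toInteger) := by
    rw [hu]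
    ring
  have h3 := mul_left_cancel₀ hζ.zeta_sub_one_prime'.ne_zero h2
  rw [← h3]
  exact u.isUnit

theorem dvd_cast {Q : ℕ} {D : ℤ} (h : (Q : ℤ) ∣ D) : (Q : 𝓞 K) ∣ (D : 𝓞 K) := by
  have := (Int.castRingHom (𝓞 K)).map_dvd h
  simpa using this

theorem coprime_cast {Q : ℕ} {D : ℤ} (h : IsCoprime D (Q : ℤ)) :
    IsCoprime (D : 𝓞 K) (Q : 𝓞 K) := by
  have := h.map (Int.castRingHom (𝓞 K))
  simpa using this

/-- the four cases -/
theorem main (hζ : IsPrimitiveRoot ζ p) (hp2 : p ≠ 2) {n : ℕ} (hn0 : n ≠ 0)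
    (hnp : Nat.Coprime n (2 * p)) (hn : Nat.Coprime n (Fintype.card (ClassGroup (𝓞 K))))
    {X Y z : ℤ} (hX : X ≠ 0) (hY : Y ≠ 0) (hs : X + Y ≠ 0) (hd : X - Y ≠ 0)
    (hXY : IsCoprime X Y) (h : X ^ p + Y ^ p = z ^ n) {Q : ℕ} (hQ0 : Q ≠ 0)
    (hQ : ∀ l : ℕ, l.Prime → l ∣ Q → Nat.Coprime n (l * (l ^ (p - 1) - 1)))
    (hD : (Q : ℤ) ∣ X ∨ (Q : ℤ) ∣ Y ∨ (Q : ℤ) ∣ X - Y ∨ ((Q : ℤ) ∣ X + Y ∧ ¬ p ∣ Q)) :
    (Q : ℤ) ^ n ≤ 2 ^ n * (|X| + |Y|) := by
  obtain ⟨d, ε, α, hA⟩ := factor (hζ := hζ) hp2 hn0 hn hXY h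
  obtain ⟨s, hrel⟩ := conj_rel (hζ := hζ) hp2 hnp hA
  have hcz := conj_zeta hζ
  have hζu : IsUnit hζ.toInteger := hζ.toInteger_isPrimitiveRoot.isUnit hp.out.ne_zero
  have hcu : IsUnit (cc K hζ.toInteger) := IsUnit.of_mul_eq_one _ hcz
  have hζ1 : hζ.toInteger - 1 ≠ 0 := hζ.zeta_sub_one_prime'.ne_zero
  have hζ2 : 1 + hζ.toInteger ≠ 0 := (isUnit_one_add hζ hp2).ne_zero
  have h1cu : IsUnit (1 + cc K hζ.toInteger) := by
    have := (isUnit_one_add hζ hp2).map (cc K)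
    simpa using this
  have cast_ne : ∀ {D : ℤ}, D ≠ 0 → (D : 𝓞 K) ≠ 0 := fun h0 => Int.cast_ne_zero.2 h0
  rcases hD with hQD | hQD | hQD | ⟨hQD, hpQ⟩
  · -- `Q ∣ X`, root of unity `ζ ^ 2`
    have e : ((X : 𝓞 K) + hζ.toInteger * Y) -
        (-hζ.toInteger) ^ 2 * ((X : 𝓞 K) + cc K hζ.toInteger * Y) =
        (X : 𝓞 K) * (-((hζ.toInteger - 1) * (1 + hζ.toInteger))) := by
      linear_combination (-hζ.toInteger * Y) * hcz
    refine core hζ hn0 hnp hA hrel (k := 2) hQ0 hQ ?_ ?_ ?_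
    · rw [e]
      exact (dvd_cast hQD).mul_right _
    · rw [e]
      exact mul_ne_zero (cast_ne hX) (neg_ne_zero.2 (mul_ne_zero hζ1 hζ2))
    · obtain ⟨r, hr⟩ := dvd_cast (K := K) hQD
      rw [hr, add_comm, IsCoprime.add_mul_left_left_iff]
      refine (isCoprime_mul_unit_left_left hcu _ _).2 (coprime_cast ?_)
      exact (IsCoprime.of_isCoprime_of_dvd_left hXY hQD).symm
  · -- `Q ∣ Y`, root of unity `1`
    have e : ((X : 𝓞 K) + hζ.toInteger * Y) -
        (-hζ.toInteger) ^ 0 * ((X : 𝓞 K) + cc K hζ.toInteger * Y) =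
        (Y : 𝓞 K) * (cc K hζ.toInteger * ((hζ.toInteger - 1) * (1 + hζ.toInteger))) := by
      linear_combination (-hζ.toInteger * Y) * hcz
    refine core hζ hn0 hnp hA hrel (k := 0) hQ0 hQ ?_ ?_ ?_
    · rw [e]
      exact (dvd_cast hQD).mul_right _
    · rw [e]
      exact mul_ne_zero (cast_ne hY) (mul_ne_zero hcu.ne_zero (mul_ne_zero hζ1 hζ2))
    · obtain ⟨r, hr⟩ := dvd_cast (K := K) hQD
      rw [hr, mul_left_comm, IsCoprime.add_mul_left_left_iff]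
      exact coprime_cast (IsCoprime.of_isCoprime_of_dvd_right hXY hQD)
  · -- `Q ∣ X - Y`, root of unity `ζ`
    have hpe : Even (p + 1) := by
      have := hp.out.odd_of_ne_two hp2
      exact this.add_one
    have hk : (-hζ.toInteger) ^ (p + 1) = hζ.toInteger := by
      rw [hpe.neg_pow, pow_succ, hζ.toInteger_isPrimitiveRoot.pow_eq_one, one_mul]
    have e : ((X : 𝓞 K) + hζ.toInteger * Y) -
        (-hζ.toInteger) ^ (p + 1) * ((X : 𝓞 K) + cc K hζ.toInteger * Y) =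
        ((X - Y : ℤ) : 𝓞 K) * (-(hζ.toInteger - 1)) := by
      rw [hk]
      push_cast
      linear_combination (-(Y : 𝓞 K)) * hcz
    refine core hζ hn0 hnp hA hrel (k := p + 1) hQ0 hQ ?_ ?_ ?_
    · rw [e]
      exact (dvd_cast hQD).mul_right _
    · rw [e]
      exact mul_ne_zero (cast_ne hd) (neg_ne_zero.2 hζ1)
    · obtain ⟨r, hr⟩ := dvd_cast (K := K) hQD
      have e2 : (X : 𝓞 K) + cc K hζ.toInteger * Y =
          (1 + cc K hζ.toInteger) * Y + (Q : 𝓞 K) * r := by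
        rw [← hr]
        push_cast
        ring
      rw [e2, IsCoprime.add_mul_left_left_iff]
      refine (isCoprime_mul_unit_left_left h1cu _ _).2 (coprime_cast ?_)
      have h5 : IsCoprime Y (X - Y) := by
        have := (IsCoprime.add_mul_left_right_iff (x := Y) (y := X) (z := -1)).2 hXY.symm
        rwa [mul_neg_one, ← sub_eq_add_neg] at this
      exact IsCoprime.of_isCoprime_of_dvd_right h5 hQD
  · -- `Q ∣ X + Y`, root of unity `-ζ`
    have e : ((X : 𝓞 K) + hζ.toInteger * Y) -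
        (-hζ.toInteger) ^ 1 * ((X : 𝓞 K) + cc K hζ.toInteger * Y) =
        ((X + Y : ℤ) : 𝓞 K) * (1 + hζ.toInteger) := by
      push_cast
      linear_combination (Y : 𝓞 K) * hcz
    refine core hζ hn0 hnp hA hrel (k := 1) hQ0 hQ ?_ ?_ ?_
    · rw [e]
      exact (dvd_cast hQD).mul_right _
    · rw [e]
      exact mul_ne_zero (cast_ne hs) hζ2
    · obtain ⟨r, hr⟩ := dvd_cast (K := K) hQD
      have e2 : (X : 𝓞 K) + cc K hζ.toInteger * Y =
          (cc K hζ.toInteger - 1) * Y + (Q : 𝓞 K) * r := by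
        rw [← hr]
        push_cast
        ring
      rw [e2, IsCoprime.add_mul_left_left_iff]
      refine IsCoprime.mul_left ?_ (coprime_cast ?_)
      · have h6 : IsCoprime (p : 𝓞 K) (Q : 𝓞 K) := by
          have h7 : Nat.Coprime p Q := (Nat.Prime.coprime_iff_not_dvd hp.out).2 hpQ
          have := (Nat.isCoprime_iff_coprime.2 h7).map (Int.castRingHom (𝓞 K))
          simpa using this
        have h8 : cc K hζ.toInteger - 1 ∣ (p : 𝓞 K) := by
          have h9 := (cc K).map_dvd hζ.toInteger_sub_one_dvd_prime'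
          simpa using h9
        exact IsCoprime.of_isCoprime_of_dvd_left h6 h8
      · have h5 : IsCoprime Y (X + Y) := by
          have := (IsCoprime.add_mul_left_right_iff (x := Y) (y := X) (z := 1)).2 hXY.symm
          rwa [mul_one] at this
        exact IsCoprime.of_isCoprime_of_dvd_right h5 hQD

end Pool.Agent.U792.KU
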