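import Mathlib
import Pool.Agent.U792.KU.Main

/-!
`X ^ p + Y ^ p = z ^ n`: consequences of `main`.
-/

set_option autoImplicit false

namespace Pool.Agent.U792.KU

open NumberField NumberField.IsCMField Polynomial Finset

/-- The prime divisors of `(X ^ p + Y ^ p) / (X + Y)`. -/
theorem prime_dvd_phi {p : ℕ} (hp : p.Prime) (hp2 : p ≠ 2) {X Y F : ℤ} (hXY : IsCoprime X Y)
    (hs0 : X + Y ≠ 0)
    (hF : (X + Y) * F = X ^ p + Y ^ p) {l : ℕ} (hl : l.Prime) (hlp : l ≠ p)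
    (hlF : (l : ℤ) ∣ F) : l ≡ 1 [MOD p] := by
  have : Fact l.Prime := ⟨hl⟩
  have : Fact p.Prime := ⟨hp⟩
  have hodd : Odd p := hp.odd_of_ne_two hp2
  have h1 : (X : ZMod l) ^ p + (Y : ZMod l) ^ p = 0 := by
    have h0 : (l : ℤ) ∣ X ^ p + Y ^ p := hF ▸ hlF.mul_left _
    have := (ZMod.intCast_zmod_eq_zero_iff_dvd _ l).2 h0
    push_cast at this
    exact this
  have hY : (Y : ZMod l) ≠ 0 := by
    intro h0
    rw [h0, zero_pow hp.ne_zero, add_zero] at h1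
    have h2 : (X : ZMod l) = 0 := pow_eq_zero_iff hp.ne_zero |>.1 h1
    have h3 := (ZMod.intCast_zmod_eq_zero_iff_dvd _ l).1 h2
    have h4 := (ZMod.intCast_zmod_eq_zero_iff_dvd _ l).1 h0
    have h5 := hXY.isUnit_of_dvd' h3 h4
    have h6 := Int.isUnit_iff.1 h5
    have := hl.one_lt
    omega
  set t : ZMod l := -(X : ZMod l) / Y with ht
  have htp : t ^ p = 1 := by
    rw [ht, div_pow, hodd.neg_pow, div_eq_one_iff_eq (pow_ne_zero _ hY)]
    linear_combination -h1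
  have ho : orderOf t ∣ p := orderOf_dvd_of_pow_eq_one htp
  rcases (Nat.dvd_prime hp).1 ho with h2 | h2
  · exfalso
    rw [orderOf_eq_one_iff] at h2
    have h3 : (X : ZMod l) = -Y := by
      rw [ht, div_eq_one_iff_eq hY] at h2
      linear_combination -h2
    have hlX : (l : ℤ) ∣ X + Y := by
      rw [← ZMod.intCast_zmod_eq_zero_iff_dvd]
      push_cast
      rw [h3]
      ring
    -- `F ≡ p X ^ (p - 1)`
    have e1 : (X + Y) * (∑ i ∈ range p, X ^ i * (-Y) ^ (p - 1 - i)) = X ^ p + Y ^ p := by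
      have := (Commute.all X (-Y)).mul_geom_sum₂ p
      rw [sub_neg_eq_add, hodd.neg_pow, sub_neg_eq_add] at this
      exact this
    have e2 : F = ∑ i ∈ range p, X ^ i * (-Y) ^ (p - 1 - i) := by
      apply mul_left_cancel₀ hs0
      rw [e1, hF]
    have e3 : ∀ i ∈ range p, (X + Y) ∣ X ^ i * (-Y) ^ (p - 1 - i) - X ^ (p - 1) := by
      intro i hi
      have e4 : X ^ (p - 1) = X ^ i * X ^ (p - 1 - i) := by
        rw [← pow_add]
        congr 1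
        have := mem_range.1 hi
        omega
      rw [e4, ← mul_sub]
      refine Dvd.dvd.mul_left ?_ _
      have e5 := sub_dvd_pow_sub_pow (-Y) X (p - 1 - i)
      have e6 : X + Y ∣ -Y - X := ⟨-1, by ring⟩
      exact e6.trans e5
    have e7 := dvd_sum e3
    rw [sum_sub_distrib, ← e2, sum_const, card_range, nsmul_eq_mul] at e7
    have e8 : (l : ℤ) ∣ (p : ℤ) * X ^ (p - 1) := by
      have := dvd_sub hlF (hlX.trans e7)
      rwa [sub_sub_cancel] at this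
    have hlP : Prime (l : ℤ) := Nat.prime_iff_prime_int.1 hl
    rcases hlP.dvd_or_dvd e8 with e9 | e9
    · have := Int.natCast_dvd_natCast.1 e9
      exact hlp ((Nat.prime_dvd_prime_iff_eq hl hp).1 this)
    · have e10 : (l : ℤ) ∣ X := hlP.dvd_of_dvd_pow e9
      have e11 : (l : ℤ) ∣ Y := by
        have := dvd_sub hlX e10
        rwa [add_sub_cancel_left] at this
      have h5 := hXY.isUnit_of_dvd' e10 e11
      have h6 := Int.isUnit_iff.1 h5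
      have := hl.one_lt
      omega
  · have h3 : orderOf t ∣ l - 1 := by
      refine ZMod.orderOf_dvd_card_sub_one ?_
      intro h0
      rw [h0, zero_pow hp.ne_zero] at htp
      exact zero_ne_one htp
    rw [h2] at h3
    exact ((Nat.modEq_iff_dvd' hl.one_le).2 h3).symm

theorem pow_dvd_sum {p : ℕ} (hp : p.Prime) (hp2 : p ≠ 2) {n : ℕ} {X Y z : ℤ}
    (hXY : IsCoprime X Y) (hs0 : X + Y ≠ 0) (h : X ^ p + Y ^ p = z ^ n) {R : ℕ}
    (hR : ∀ l : ℕ, l.Prime → l ∣ R → l ≠ p ∧ ¬ l ≡ 1 [MOD p]) (hRz : (R : ℤ) ∣ z) :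
    ((R ^ n : ℕ) : ℤ) ∣ X + Y := by
  have hodd : Odd p := hp.odd_of_ne_two hp2
  obtain ⟨F, hF⟩ : X + Y ∣ X ^ p + Y ^ p := hodd.add_dvd_pow_add_pow X Y
  have hcop : IsCoprime (R : ℤ) F := by
    rw [Int.isCoprime_iff_gcd_eq_one]
    by_contra hne
    obtain ⟨l, hl, hlg⟩ := Nat.exists_prime_and_dvd hne
    have h1 : (l : ℤ) ∣ R := (Int.natCast_dvd_natCast.2 hlg).trans (Int.gcd_dvd_left _ _)
    have h2 : (l : ℤ) ∣ F := (Int.natCast_dvd_natCast.2 hlg).trans (Int.gcd_dvd_right _ _)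
    have h3 := hR l hl (Int.natCast_dvd_natCast.1 h1)
    exact h3.2 (prime_dvd_phi hp hp2 hXY hs0 hF.symm hl h3.1 h2)
  have h1 : ((R ^ n : ℕ) : ℤ) ∣ (X + Y) * F := by
    rw [← hF, h]
    push_cast
    exact pow_dvd_pow_of_dvd hRz n
  refine IsCoprime.dvd_of_dvd_mul_right ?_ h1
  push_cast
  exact hcop.pow_left

variable {p : ℕ} [hp : Fact p.Prime] {K : Type*} [Field K] [NumberField K]
  [IsCyclotomicExtension {p} ℚ K] {ζ : K} [IsCMField K]

/-- divisors of `z` -/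
theorem main_z (hζ : IsPrimitiveRoot ζ p) (hp2 : p ≠ 2) {n : ℕ} (hn0 : n ≠ 0)
    (hnp : Nat.Coprime n (2 * p)) (hn : Nat.Coprime n (Fintype.card (ClassGroup (𝓞 K))))
    {X Y z : ℤ} (hX : X ≠ 0) (hY : Y ≠ 0) (hs : X + Y ≠ 0) (hd : X - Y ≠ 0)
    (hXY : IsCoprime X Y) (h : X ^ p + Y ^ p = z ^ n) {R : ℕ} (hR0 : R ≠ 0)
    (hR : ∀ l : ℕ, l.Prime → l ∣ R → l ≠ p ∧ ¬ l ≡ 1 [MOD p] ∧
      Nat.Coprime n (l * (l ^ (p - 1) - 1)))
    (hRz : (R : ℤ) ∣ z) :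
    (R : ℤ) ^ (n ^ 2) ≤ 2 ^ n * (|X| + |Y|) := by
  have h1 := pow_dvd_sum hp.out hp2 hXY hs h (fun l hl hlR => ⟨(hR l hl hlR).1,
    (hR l hl hlR).2.1⟩) hRz
  have h2 := main hζ hp2 hn0 hnp hn hX hY hs hd hXY h (Q := R ^ n) (pow_ne_zero _ hR0)
    (fun l hl hlR => (hR l hl (hl.dvd_of_dvd_pow hlR)).2.2) (Or.inr (Or.inr (Or.inr ⟨h1, by
      intro h3
      have h4 : p ∣ R := hp.out.dvd_of_dvd_pow h3
      exact (hR p hp.out h4).1 rfl⟩)))
  rw [sq, pow_mul]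
  push_cast at h2
  exact h2

theorem small {n : ℕ} (hn : 3 ≤ n) {Q : ℕ} (h : (Q : ℤ) ^ n ≤ 2 ^ n * (2 * Q)) : Q ≤ 4 := by
  by_contra hQ
  push Not at hQ
  have h0 : (0 : ℤ) < Q := by exact_mod_cast (by omega : 0 < Q)
  obtain ⟨m, rfl⟩ : ∃ m, n = m + 3 := ⟨n - 3, by omega⟩
  have h1 : (Q : ℤ) ^ (m + 2) ≤ 2 ^ (m + 4) := by
    have e1 : (Q : ℤ) ^ (m + 3) = Q ^ (m + 2) * Q := by ring
    have e2 : (2 : ℤ) ^ (m + 3) * (2 * Q) = 2 ^ (m + 4) * Q := by ring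
    rw [e1, e2] at h
    exact le_of_mul_le_mul_right h h0
  have h2 : (2 : ℤ) ^ (m + 4) < (Q : ℤ) ^ (m + 2) := by
    have h3 : (5 : ℤ) ^ (m + 2) ≤ (Q : ℤ) ^ (m + 2) :=
      pow_le_pow_left₀ (by norm_num) (by exact_mod_cast hQ) _
    have h4 : (2 : ℤ) ^ m ≤ 5 ^ m := pow_le_pow_left₀ (by norm_num) (by norm_num) _
    have h5 : (0 : ℤ) < 2 ^ m := by positivity
    have e3 : (2 : ℤ) ^ (m + 4) = 16 * 2 ^ m := by ring
    have e4 : (5 : ℤ) ^ (m + 2) = 25 * 5 ^ m := by ring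
    rw [e3]
    rw [e4] at h3
    linarith
  linarith

theorem bad_prime {p n Q : ℕ}
    (h : ¬ ∀ l : ℕ, l.Prime → l ∣ Q → Nat.Coprime n (l * (l ^ (p - 1) - 1))) (hn : n ≠ 0) :
    ∃ l : ℕ, l.Prime ∧ l ∣ Q ∧ 1 < Nat.gcd n (l * (l ^ (p - 1) - 1)) := by
  push Not at h
  obtain ⟨l, hl, hlQ, hc⟩ := h
  refine ⟨l, hl, hlQ, ?_⟩
  have h1 : 0 < Nat.gcd n (l * (l ^ (p - 1) - 1)) := Nat.gcd_pos_of_pos_left _ (by omega)
  have h2 : Nat.gcd n (l * (l ^ (p - 1) - 1)) ≠ 1 := hc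
  omega

/-- the larger base -/
theorem main_max (hζ : IsPrimitiveRoot ζ p) (hp2 : p ≠ 2) {n : ℕ} (hn1 : 2 ≤ n)
    (hnp : Nat.Coprime n (2 * p)) (hn : Nat.Coprime n (Fintype.card (ClassGroup (𝓞 K))))
    {X Y z : ℤ} (hX : 5 ≤ |X|) (hY : Y ≠ 0) (hle : |Y| ≤ |X|)
    (hXY : IsCoprime X Y) (h : X ^ p + Y ^ p = z ^ n) :
    ∃ l : ℕ, l.Prime ∧ (l : ℤ) ∣ X ∧ 1 < Nat.gcd n (l * (l ^ (p - 1) - 1)) := by
  have hn3 : 3 ≤ n := by
    rcases Nat.lt_or_ge n 3 with h1 | h1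
    · have : n = 2 := by omega
      subst this
      exfalso
      have h2 := Nat.Coprime.coprime_dvd_right (Dvd.intro _ rfl : 2 ∣ 2 * p) hnp
      norm_num at h2
    · exact h1
  have hX0 : X ≠ 0 := by
    intro h0
    rw [h0, abs_zero] at hX
    omega
  have hne : |X| ≠ |Y| := by
    intro h0
    have h1 : X ∣ Y := (abs_dvd_abs X Y).1 (h0 ▸ dvd_refl _)
    have h2 : IsUnit X := hXY.isUnit_of_dvd' dvd_rfl h1
    have h3 := Int.isUnit_iff.1 h2
    rcases h3 with h3 | h3 <;> rw [h3] at hX <;> norm_num at hX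
  have hs : X + Y ≠ 0 := by
    intro h0
    apply hne
    rw [eq_neg_of_add_eq_zero_left h0, abs_neg]
  have hd : X - Y ≠ 0 := by
    intro h0
    apply hne
    rw [sub_eq_zero.1 h0]
  have hcast : ((X.natAbs : ℕ) : ℤ) = |X| := Int.natCast_natAbs X
  by_cases hfree : ∀ l : ℕ, l.Prime → l ∣ X.natAbs → Nat.Coprime n (l * (l ^ (p - 1) - 1))
  · exfalso
    have h1 := main hζ hp2 (by omega) hnp hn hX0 hY hs hd hXY h (Q := X.natAbs)
      (Int.natAbs_ne_zero.2 hX0) hfree (Or.inl (by rw [hcast, abs_dvd]))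
    have h2 : (X.natAbs : ℤ) ^ n ≤ 2 ^ n * (2 * X.natAbs) := by
      refine h1.trans ?_
      rw [hcast]
      have : (0 : ℤ) < 2 ^ n := by positivity
      nlinarith
    have h3 := small hn3 h2
    have h4 : (X.natAbs : ℤ) ≤ 4 := by exact_mod_cast h3
    rw [hcast] at h4
    omega
  · obtain ⟨l, hl, hlX, hg⟩ := bad_prime hfree (by omega)
    exact ⟨l, hl, Int.natCast_dvd.2 hlX, hg⟩

/-- the sum of positive bases -/
theorem main_sum (hζ : IsPrimitiveRoot ζ p) (hp2 : p ≠ 2) {n : ℕ} (hn1 : 2 ≤ n)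
    (hnp : Nat.Coprime n (2 * p)) (hn : Nat.Coprime n (Fintype.card (ClassGroup (𝓞 K))))
    {X Y z : ℤ} (hX : 0 < X) (hY : 0 < Y) (hs3 : 3 ≤ X + Y)
    (hXY : IsCoprime X Y) (h : X ^ p + Y ^ p = z ^ n) (hpz : ¬ (p : ℤ) ∣ X + Y) :
    ∃ l : ℕ, l.Prime ∧ (l : ℤ) ∣ X + Y ∧ 1 < Nat.gcd n (l * (l ^ (p - 1) - 1)) := by
  have hn3 : 3 ≤ n := by
    rcases Nat.lt_or_ge n 3 with h1 | h1
    · have : n = 2 := by omega
      subst this
      exfalso
      have h2 := Nat.Coprime.coprime_dvd_right (Dvd.intro _ rfl : 2 ∣ 2 * p) hnp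
      norm_num at h2
    · exact h1
  have hd : X - Y ≠ 0 := by
    intro h0
    have h1 : X = Y := by omega
    subst h1
    have h2 : IsUnit X := hXY.isUnit_of_dvd' dvd_rfl dvd_rfl
    have h3 := Int.isUnit_iff.1 h2
    omega
  have hcast : (((X + Y).natAbs : ℕ) : ℤ) = X + Y := by
    rw [Int.natCast_natAbs, abs_of_pos (by omega)]
  have hXa : |X| = X := abs_of_pos hX
  have hYa : |Y| = Y := abs_of_pos hY
  by_cases hfree : ∀ l : ℕ, l.Prime → l ∣ (X + Y).natAbs →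
      Nat.Coprime n (l * (l ^ (p - 1) - 1))
  · exfalso
    have h1 := main hζ hp2 (by omega) hnp hn hX.ne' hY.ne' (by omega) hd hXY h
      (Q := (X + Y).natAbs)
      (Int.natAbs_ne_zero.2 (by omega)) hfree (Or.inr (Or.inr (Or.inr ⟨by rw [hcast], by
        intro h0
        apply hpz
        rw [← hcast]
        exact_mod_cast h0⟩)))
    rw [hXa, hYa, hcast] at h1
    obtain ⟨m, rfl⟩ : ∃ m, n = m + 3 := ⟨n - 3, by omega⟩
    have h2 : (X + Y) ^ (m + 2) ≤ 2 ^ (m + 3) := by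
      have e1 : (X + Y) ^ (m + 3) = (X + Y) ^ (m + 2) * (X + Y) := by ring
      rw [e1] at h1
      exact le_of_mul_le_mul_right h1 (by omega)
    have h3 : (3 : ℤ) ^ (m + 2) ≤ (X + Y) ^ (m + 2) :=
      pow_le_pow_left₀ (by norm_num) hs3 _
    have h4 : (2 : ℤ) ^ m ≤ 3 ^ m := pow_le_pow_left₀ (by norm_num) (by norm_num) _
    have h5 : (0 : ℤ) < 2 ^ m := by positivity
    have e3 : (2 : ℤ) ^ (m + 3) = 8 * 2 ^ m := by ring
    have e4 : (3 : ℤ) ^ (m + 2) = 9 * 3 ^ m := by ring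
    rw [e4] at h3
    rw [e3] at h2
    linarith
  · obtain ⟨l, hl, hlX, hg⟩ := bad_prime hfree (by omega)
    exact ⟨l, hl, by
      rw [← hcast]
      exact_mod_cast hlX, hg⟩

section cyclotomic

/-- everything for the field `ℚ(ζ_p)` of Mathlib -/
theorem instCyc (p : ℕ) : IsCyclotomicExtension {p} ℚ (CyclotomicField p ℚ) := by
  have h2 : @IsCyclotomicExtension {p} ℚ (CyclotomicField p ℚ) _ _
    (CyclotomicField.algebra p ℚ) := inferInstance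
  convert h2
  exact Subsingleton.elim _ _

theorem inst {p : ℕ} (hp3 : 3 ≤ p) : IsCMField (CyclotomicField p ℚ) := by
  have := instCyc p
  exact IsCyclotomicExtension.Rat.isCMField (CyclotomicField p ℚ) (S := {p})
    ⟨p, rfl, by omega⟩

theorem sub_ne {p n : ℕ} (hn : 2 ≤ n) {X Y z : ℤ} (hXY : IsCoprime X Y)
    (h : X ^ p + Y ^ p = z ^ n) : X - Y ≠ 0 := by
  intro h0
  have h1 : X = Y := by omega
  subst h1
  have h2 : IsUnit X := hXY.isUnit_of_dvd' dvd_rfl dvd_rfl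
  have h3 : IsUnit (X ^ p) := h2.pow p
  have h4 : (z ^ n).natAbs = 2 := by
    rw [← h]
    rcases Int.isUnit_iff.1 h3 with h5 | h5 <;> rw [h5] <;> norm_num
  rw [Int.natAbs_pow] at h4
  have h6 : z.natAbs ∣ 2 := by
    rw [← h4]
    exact dvd_pow_self _ (by omega)
  rcases (Nat.dvd_prime Nat.prime_two).1 h6 with h7 | h7
  · rw [h7, one_pow] at h4
    norm_num at h4
  · rw [h7] at h4
    have : 2 ^ 2 ≤ 2 ^ n := Nat.pow_le_pow_right (by norm_num) hn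
    omega

end cyclotomic

end Pool.Agent.U792.KU

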